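import Pool.Agent.TH345.ET.X

/-!
# Continuation or transcendence on the edge of the L-function of an elliptic curve

`E` is an elliptic curve over a number field `K`.  The Euler product `L(E/K, s)` converges for
`Re s > 3/2`, and a continuation across any point of the edge `Re s = 3/2` is not known in general.
The theorem says that at almost every point `3/2 + iτ` of the edge one of two things happens: either
`L(E/K, s)` continues holomorphically to a neighbourhood of this point, or its boundary value at this
point is a transcendental number, and remains transcendental over the field generated by the values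
at `3/2 + iτ` of any countable set of (locally) analytic functions given in advance, such as `s`,
`p^s`, `Γ(s)`, `ζ(s)`, all Dirichlet L-functions, all L-functions of modular forms, with all their
derivatives and shifts.  So the continuation across the edge, the first step of the Hasse-Weil
conjecture, would follow from the algebraicity (in this very weak sense) of the boundary values.
-/

set_option autoImplicit false

namespace Pool.Agent.Results.MP_bf61d2_nt.ContinuationOrTranscendence

open NumberField IsDedekindDomain MeasureTheory Filter Topology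

/-- `W v` is, for every finite place `v`, an integral model of `E` with discriminant minimal at
`v`. -/
def MinimalModels {K : Type} [Field K] [NumberField K] (E : WeierstrassCurve K)
    (W : HeightOneSpectrum (𝓞 K) → WeierstrassCurve (𝓞 K)) : Prop :=
  ∀ v : HeightOneSpectrum (𝓞 K),
    (∃ C : WeierstrassCurve.VariableChange K, C • (W v).map (algebraMap (𝓞 K) K) = E) ∧
    ∀ W' : WeierstrassCurve (𝓞 K),
      (∃ C : WeierstrassCurve.VariableChange K, C • W'.map (algebraMap (𝓞 K) K) = E) →
      ∀ n : ℕ, (W v).Δ ∈ v.asIdeal ^ n → W'.Δ ∈ v.asIdeal ^ n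

open Classical in
/-- The Euler factor at `v`, `(1 - a_v Nv^{-s} + Nv^{1-2s})⁻¹` if the reduction at `v` is good and
`(1 - a_v Nv^{-s})⁻¹` if it is bad, where `a_v` is `Nv` minus the number of affine points of the
reduction of `W v` (for bad reduction this is `1`, `-1`, `0` in the split multiplicative, non-split
multiplicative, additive case). -/
noncomputable def localFactor {K : Type} [Field K] [NumberField K]
    (W : HeightOneSpectrum (𝓞 K) → WeierstrassCurve (𝓞 K)) (v : HeightOneSpectrum (𝓞 K))
    (s : ℂ) : ℂ :=
  (1 - ((Ideal.absNorm v.asIdeal : ℂ)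
        - (Nat.card {xy : (𝓞 K ⧸ v.asIdeal) × (𝓞 K ⧸ v.asIdeal) //
            ((W v).map (Ideal.Quotient.mk v.asIdeal)).toAffine.Equation xy.1 xy.2} : ℂ))
        * (Ideal.absNorm v.asIdeal : ℂ) ^ (-s)
    + (if (W v).Δ ∈ v.asIdeal then 0 else (Ideal.absNorm v.asIdeal : ℂ))
        * (Ideal.absNorm v.asIdeal : ℂ) ^ (-2 * s))⁻¹

/-- The `L`-function, as the Euler product over all finite places. -/
noncomputable def LSeries {K : Type} [Field K] [NumberField K]
    (W : HeightOneSpectrum (𝓞 K) → WeierstrassCurve (𝓞 K)) (s : ℂ) : ℂ :=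
  ∏' v : HeightOneSpectrum (𝓞 K), localFactor W v s

/-- The point `3/2 + iτ` of the edge. -/
noncomputable def edge (τ : ℝ) : ℂ := 3 / 2 + τ * Complex.I

/-- The angle `|s - (3/2 + iτ)| ≤ C (Re s - 3/2)` in the half-plane `Re s > 3/2`. -/
def angle (τ C : ℝ) : Set ℂ :=
  {s : ℂ | 3 / 2 < s.re ∧ ‖s - edge τ‖ ≤ C * (s.re - 3 / 2)}

/-- `L(E/K, s)` continues holomorphically to a neighbourhood of `3/2 + iτ`: near this point it
agrees, for `Re s > 3/2`, with a function analytic there. -/
def Continues {K : Type} [Field K] [NumberField K]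
    (W : HeightOneSpectrum (𝓞 K) → WeierstrassCurve (𝓞 K)) (τ : ℝ) : Prop :=
  ∃ φ : ℂ → ℂ, AnalyticAt ℂ φ (edge τ) ∧
    ∀ᶠ s in 𝓝 (edge τ), 3 / 2 < s.re → LSeries W s = φ s

/-- The values at `s` of the functions in `A` which are analytic at `s`. -/
def values (A : Set (ℂ → ℂ)) (s : ℂ) : Set ℂ :=
  {z : ℂ | ∃ g ∈ A, AnalyticAt ℂ g s ∧ g s = z}

/-- **Continuation or transcendence.**  Let `E` be an elliptic curve over a number field `K`.  There
is a function `l` on the real line such that

* `L(E/K, s)` tends to `l(τ)` as `s` tends to `3/2 + iτ` in any angle in the half-plane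
  `Re s > 3/2`, for all real `τ` outside a set of Hausdorff dimension `0`;
* for every countable set `A` of functions, for almost every real `τ`, either `L(E/K, s)` continues
  holomorphically to a neighbourhood of `3/2 + iτ`, or `l(τ)` is transcendental over the field
  generated over `ℚ` by the values `g(3/2 + iτ)` of all functions `g` in `A` which are analytic at
  `3/2 + iτ`. -/
theorem result (K : Type) [Field K] [NumberField K] (E : WeierstrassCurve K) [E.IsElliptic]
    (W : HeightOneSpectrum (𝓞 K) → WeierstrassCurve (𝓞 K)) (_ : MinimalModels E W) :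
    ∃ l : ℝ → ℂ,
      (∃ N : Set ℝ, dimH N = 0 ∧ ∀ τ : ℝ, τ ∉ N → ∀ C : ℝ,
        Tendsto (LSeries W) (𝓝[angle τ C] (edge τ)) (𝓝 (l τ))) ∧
      ∀ A : Set (ℂ → ℂ), A.Countable → ∀ᵐ τ : ℝ, Continues W τ ∨
        Transcendental (IntermediateField.adjoin ℚ (values A (edge τ))) (l τ) := by
  have hlf : ∀ v s, localFactor W v s = Pool.Agent.TH339.MP.elf W v s := by
    intro v s
    have h1 : (Nat.card {xy : (𝓞 K ⧸ v.asIdeal) × (𝓞 K ⧸ v.asIdeal) //
            ((W v).map (Ideal.Quotient.mk v.asIdeal)).toAffine.Equation xy.1 xy.2}) =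
        Pool.Agent.TH339.MP.affc ((W v).map (Ideal.Quotient.mk v.asIdeal)) := by
      unfold Pool.Agent.TH339.MP.affc
      refine Nat.card_congr (Equiv.subtypeEquivRight fun q => ?_)
      exact WeierstrassCurve.Affine.equation_iff ..
    unfold localFactor Pool.Agent.TH339.MP.elf Pool.Agent.TH339.MP.lfac Pool.Agent.TH339.MP.av
      Pool.Agent.TH339.MP.nm
    rw [h1]
    push_cast
    rfl
  have hL : ∀ s, LSeries W s = ∏' v, Pool.Agent.TH339.MP.elf W v s :=
    fun s => tprod_congr fun v => hlf v s
  obtain ⟨b, hb, hprod⟩ := Pool.Agent.TH345.ET.elf_hasProd' W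
  have hLb : ∀ s : ℂ, 3 / 2 < s.re → LSeries W s =
      Pool.Agent.TH345.ET.hE W (s - 1 / 2) *
        Complex.exp (Pool.Agent.TH339.MP.FF b (s - 1 / 2)) := by
    intro s hs
    have h1 : 1 < (s - 1 / 2).re := by
      have : (s - 1 / 2).re = s.re - 1 / 2 := by simp
      rw [this]
      linarith
    have h2 := hprod _ h1
    rw [sub_add_cancel] at h2
    rw [hL, h2.tprod_eq]
  have hsub : ∀ τ : ℝ, edge τ - 1 / 2 = Pool.Agent.TH345.ET.ep τ := by
    intro τ
    unfold edge Pool.Agent.TH345.ET.ep
    ring
  have hep : ∀ τ : ℝ, Pool.Agent.TH345.ET.ep τ + 1 / 2 = edge τ := by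
    intro τ
    rw [← hsub, sub_add_cancel]
  have hdim := (Pool.Agent.TH339.MP.boundary hb).2.1
  refine ⟨Pool.Agent.TH345.ET.bv b (Pool.Agent.TH345.ET.hE W),
    ⟨_, hdim, fun τ hτ C => ?_⟩, fun A hA => ?_⟩
  · have h5 := (Complex.continuous_exp.tendsto _).comp (Pool.Agent.TH339.MP.bl_angle hb hτ C)
    have h6 : Tendsto (fun s : ℂ => s - edge τ) (𝓝[angle τ C] (edge τ))
        (𝓝[{z : ℂ | 0 < z.re ∧ ‖z‖ ≤ C * z.re}] 0) := by
      rw [tendsto_nhdsWithin_iff]
      constructor
      · have h7 : Tendsto (fun s : ℂ => s - edge τ) (𝓝 (edge τ)) (𝓝 (edge τ - edge τ)) :=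
          (continuous_id.sub continuous_const).tendsto _
        rw [sub_self] at h7
        exact h7.mono_left nhdsWithin_le_nhds
      · filter_upwards [self_mem_nhdsWithin] with s hs
        have hre : (s - edge τ).re = s.re - 3 / 2 := by
          unfold edge
          simp
        refine ⟨?_, ?_⟩
        · rw [hre]
          linarith [hs.1]
        · rw [hre]
          exact hs.2
    have h7 : Tendsto (fun s : ℂ => Pool.Agent.TH345.ET.hE W (s - 1 / 2)) (𝓝[angle τ C] (edge τ))
        (𝓝 (Pool.Agent.TH345.ET.hE W (Pool.Agent.TH345.ET.ep τ))) := by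
      have h8 : Tendsto (fun s : ℂ => s - 1 / 2) (𝓝 (edge τ)) (𝓝 (edge τ - 1 / 2)) :=
        (continuous_id.sub continuous_const).tendsto _
      rw [hsub] at h8
      exact (((Pool.Agent.TH345.ET.hE_analytic W τ).continuousAt.tendsto).comp h8).mono_left
        nhdsWithin_le_nhds
    refine (h7.mul (h5.comp h6)).congr' ?_
    filter_upwards [self_mem_nhdsWithin] with s hs
    rw [hLb s hs.1]
    simp only [Function.comp_apply]
    congr 3
    unfold edge
    ring
  · -- the functions `s ↦ g (s + 1/2)`
    have hshift : ∀ (g : ℂ → ℂ) (τ : ℝ), AnalyticAt ℂ g (edge τ) →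
        AnalyticAt ℂ (fun s => g (s + 1 / 2)) (Pool.Agent.TH345.ET.ep τ) := by
      intro g τ hg
      refine AnalyticAt.fun_comp (g := g) (f := fun s : ℂ => s + 1 / 2) ?_
        (analyticAt_id.add analyticAt_const)
      rw [hep]
      exact hg
    have h1 := Pool.Agent.TH345.ET.ae_transcendental hb
      (Pool.Agent.TH345.ET.hE_analytic W)
      (A := (fun g : ℂ → ℂ => fun s : ℂ => g (s + 1 / 2)) '' A) (hA.image _)
    filter_upwards [h1] with τ hτ
    rcases hτ with hτ | hτ
    · left
      obtain ⟨φ, hφ, hev⟩ := hτ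
      refine ⟨fun s => φ (s - 1 / 2), ?_, ?_⟩
      · refine AnalyticAt.fun_comp (g := φ) (f := fun s : ℂ => s - 1 / 2) ?_
          (analyticAt_id.sub analyticAt_const)
        rw [hsub]
        exact hφ
      · have h8 : Tendsto (fun s : ℂ => s - 1 / 2) (𝓝 (edge τ)) (𝓝 (edge τ - 1 / 2)) :=
          (continuous_id.sub continuous_const).tendsto _
        rw [hsub] at h8
        filter_upwards [h8.eventually hev] with s hs hs1
        have h9 : 1 < (s - 1 / 2).re := by
          have : (s - 1 / 2).re = s.re - 1 / 2 := by simp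
          rw [this]
          linarith
        rw [hLb s hs1]
        exact hs h9
    · right
      intro halg
      apply hτ
      have hle : IntermediateField.adjoin ℚ (values A (edge τ)) ≤
          IntermediateField.adjoin ℚ (Pool.Agent.TH345.ET.vals
            ((fun g : ℂ → ℂ => fun s : ℂ => g (s + 1 / 2)) '' A)
            (Pool.Agent.TH345.ET.ep τ)) := by
        refine IntermediateField.adjoin.mono _ _ _ ?_
        rintro z ⟨g, hg, hga, rfl⟩
        refine ⟨fun s => g (s + 1 / 2), ⟨g, hg, rfl⟩, hshift g τ hga, ?_⟩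
        simp only
        rw [hep]
      obtain ⟨P, hP, hPx⟩ := halg
      refine ⟨P.map (IntermediateField.inclusion hle).toRingHom, ?_, ?_⟩
      · rw [Polynomial.map_ne_zero_iff (IntermediateField.inclusion hle).toRingHom.injective]
        exact hP
      · rw [Polynomial.aeval_def, Polynomial.eval₂_map]
        rw [Polynomial.aeval_def] at hPx
        exact hPx

end Pool.Agent.Results.MP_bf61d2_nt.ContinuationOrTranscendence
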