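import Pool.Agent.TH820.LG.ECTower

/-!
# Elliptic curves over towers of extensions with large linear and alternating groups

`K` is an arbitrary number field and `E` an elliptic curve over `K`, given by an integral Weierstrass
equation `W` with discriminant `≠ 0`; nothing is assumed about the modularity of `E`.  Let
`M = T_0 ⊆ T_1 ⊆ … ⊆ T_r = F` be finite Galois extensions of `K` such that each group
`Gal(T_{j+1}/T_j)` is a quotient of `SL_m(k)`, for a finite field `k`, on which `Gal(T_{j+1}/K)` acts through
`GL_m(k)`, or a quotient of the alternating group `A_m` on which `Gal(T_{j+1}/K)` acts through the symmetric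
group `S_m`.  The numbers `m`, which may depend on `j`, have to be larger than an absolute constant; the
fields `k`, the number `r` and the group `Gal(M/K)` are arbitrary.  For example `Gal(F/K)` is `SL_m(k)`,
`GL_m(k)`, `PGL_m(k)`, `A_m`, `S_m` or a product of groups of these kinds and an arbitrary group.

The line `Re s = 3/2` is the edge of the half plane of absolute convergence.  The new case is the point
`3/2` itself: for the points `3/2 + iτ`, `τ ≠ 0`, and representations `χ` of dimension at least two the first
statement is contained in `Pool.Agent.Results.MP_bf61d2_nt.NonabelianTwists`.  The definitions are in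
`Pool.Agent.TH820.LG.ECTowerDefs`, `Pool.Agent.TH820.LG.ECDefs`, `Pool.Agent.TH820.LG.TowerDefs`,
`Pool.Agent.TH820.LG.Defs` and `Pool.Agent.TH526.DS.CamDefs`.
-/

set_option autoImplicit false

namespace Pool.Agent.Results.MP_bf61d2_nt.LinearGroups

open NumberField

/-- **Elliptic curves over towers of extensions with large linear and alternating groups.**  There is an
absolute constant `n₀` with the following property.  Let `E` be an elliptic curve over a number field
`K`, `τ` real, and let `M = T_0 ⊆ T_1 ⊆ … ⊆ T_r = F` be finite Galois extensions of `K` such that each
`Gal(T_{j+1}/T_j)` is, for some `m ≥ n₀`, a quotient of `SL_m(k)`, `k` a finite field, on which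
`Gal(T_{j+1}/K)` acts through `GL_m(k)`, or a quotient of `A_m` on which it acts through `S_m`.  Suppose
that `L(E ⊗ χ, s)` has a meromorphic continuation to a neighbourhood of the one point `3/2 + iτ` for all
irreducible representations `χ` of `Gal(F/K)` that are not trivial on `Gal(F/M)`.
* All these functions have neither a zero nor a pole at `3/2 + iτ`.
* Let `F'` be any field with `K ⊆ F' ⊆ F`.  The values of `log |L(3/2 + iτ + ε)| / log(1/ε)` for
  `L(E/F', s)` and `L(E/F' ∩ M, s)` differ by a null function, and the orders of these functions at
  `3/2 + iτ`, if they exist, are equal. -/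
theorem result : ∃ n₀ : ℕ, ∀ (K : Type) [Field K] [NumberField K]
    (W : WeierstrassCurve (𝓞 K)), W.Δ ≠ 0 → Pool.Agent.TH820.LG.EC.TowerOrders W n₀ :=
  Pool.Agent.TH820.LG.EC.towerOrders

end Pool.Agent.Results.MP_bf61d2_nt.LinearGroups
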