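import Pool.Agent.TH553.GP.Fld

/-!
# The law of Sato and Tate and the edge of the L-functions over all extensions of the base field

`K` is a number field and `E` an elliptic curve over `K`, given by an integral Weierstrass equation `W`
with discriminant `≠ 0` (every elliptic curve over `K` has one).  The only hypothesis is the law of Sato
and Tate for `E` over `K`; it is a theorem for all `E` without complex multiplication if `K` is totally real
or a CM field, for example for `K = ℚ`.  The theorem is about `L(E/F, s)` for ALL finite extensions `F` of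
`K` and about `L(E ⊗ ρ, s)` for ALL irreducible Artin representations `ρ` of `K`.  Their continuation to the
edge `Re s = 3/2` of absolute convergence is not known if the Galois groups are not solvable, not even for
`K = ℚ`.

The reason for the results is that the order at `3/2 + iτ` of a continuation is `-1` times a mean value of
`(a_v / √q_v) φ(Frob_v, q_v^{-iτ})` with a function `φ` of the Frobenius class and of `q_v^{-iτ}`.  By
the hypothesis, `a_v / √q_v` has the law of Sato and Tate, and it is independent of `q_v^{-iτ}` (not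
necessarily of the Frobenius class!).  For given `q_v^{-iτ}` the function `φ` has only `r` values, where
`r` is the number of conjugacy classes of the Galois group, and a random variable with the law of Sato and
Tate has at least the distance `√(π²/(12 r²))` in the mean from every function with `r` values.
-/

set_option autoImplicit false
open Classical

namespace Pool.Agent.Results.MP_bf61d2_nt.SatoTateEdge

open NumberField IsDedekindDomain Filter Topology Polynomial

section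

variable {K : Type} [Field K] [NumberField K]

/-! ### The law of Sato and Tate -/

/-- The number of solutions of the affine Weierstrass equation of `V` with coordinates in `R`. -/
noncomputable def affineCount {R : Type} [CommRing R] (V : WeierstrassCurve R) : ℕ :=
  Nat.card {P : R × R // P.2 ^ 2 + V.a₁ * P.1 * P.2 + V.a₃ * P.2 =
    P.1 ^ 3 + V.a₂ * P.1 ^ 2 + V.a₄ * P.1 + V.a₆}

/-- `a_v = q_v + 1 - #E(k_v)`, `k_v` the residue field of `v` and `q_v` its number of elements; there is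
one point at infinity. -/
noncomputable def frobTrace (W : WeierstrassCurve (𝓞 K)) (v : HeightOneSpectrum (𝓞 K)) : ℤ :=
  (Ideal.absNorm v.asIdeal : ℤ) + 1 - ((affineCount (W.map (Ideal.Quotient.mk v.asIdeal)) : ℤ) + 1)

/-- The average of `φ` over the primes `v` of `K` with `q_v ≤ N`. -/
noncomputable def average (φ : HeightOneSpectrum (𝓞 K) → ℝ) (N : ℕ) : ℝ :=
  (∑ᶠ v : {v : HeightOneSpectrum (𝓞 K) // Ideal.absNorm v.asIdeal ≤ N}, φ v.1) /
    (Nat.card {v : HeightOneSpectrum (𝓞 K) // Ideal.absNorm v.asIdeal ≤ N} : ℝ)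

/-- The law of Sato and Tate for `E : W` over `K`: the numbers `a_v / √q_v` have the distribution of the
trace of a random element of `SU(2)`. -/
def SatoTate (W : WeierstrassCurve (𝓞 K)) : Prop :=
  ∀ g : ℝ → ℝ, Continuous g →
    Tendsto (average fun v => g (frobTrace W v / Real.sqrt (Ideal.absNorm v.asIdeal))) atTop
      (𝓝 (2 / Real.pi * ∫ θ in (0 : ℝ)..Real.pi, g (2 * Real.cos θ) * Real.sin θ ^ 2))

/-! ### Artin twists -/

/-- `ρ` is an irreducible Artin representation of `K`: it is trivial on an open subgroup. -/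
structure IsArtin {n : ℕ} (ρ : Representation ℂ Gal(AlgebraicClosure K/K) (Fin n → ℂ)) : Prop where
  irreducible : ρ.IsIrreducible
  continuous : ∃ U : Subgroup Gal(AlgebraicClosure K/K),
    IsOpen (U : Set Gal(AlgebraicClosure K/K)) ∧ ∀ u ∈ U, ρ u = 1

/-- `σ` is a Frobenius element at the prime `v` of `K`: there is a maximal ideal `Q` above `v` of the
ring of all algebraic integers with `σ x ≡ x ^ q_v` modulo `Q` for all `x`. -/
def IsFrobenius (v : HeightOneSpectrum (𝓞 K)) (σ : Gal(AlgebraicClosure K/K)) : Prop :=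
  ∃ Q : Ideal (𝓞 (AlgebraicClosure K)), Q.IsMaximal ∧
    Q.comap (algebraMap (𝓞 K) (𝓞 (AlgebraicClosure K))) = v.asIdeal ∧
    ∀ x : 𝓞 (AlgebraicClosure K), σ • x - x ^ Ideal.absNorm v.asIdeal ∈ Q

/-- The polynomials `B v` are Euler factors of `L(E ⊗ ρ, s)`, for use at the height `τ`: for all but
finitely many primes `v`, `B_v(z) = det(1 - a_v z ρ(Frob_v⁻¹) + q_v z² ρ(Frob_v⁻¹)²)`, and for all primes
`B_v(q_v^{-3/2 - iτ}) ≠ 0` (this is true for the Euler factors of the L-function at all primes). -/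
structure IsEulerFactor (W : WeierstrassCurve (𝓞 K)) {n : ℕ}
    (ρ : Representation ℂ Gal(AlgebraicClosure K/K) (Fin n → ℂ)) (τ : ℝ)
    (B : HeightOneSpectrum (𝓞 K) → ℂ[X]) : Prop where
  factor : ∀ᶠ v in cofinite, ∀ σ : Gal(AlgebraicClosure K/K), IsFrobenius v σ → ∀ z : ℂ,
    (B v).eval z = LinearMap.det (1 - ((frobTrace W v : ℂ) * z) • ρ σ⁻¹ +
      ((Ideal.absNorm v.asIdeal : ℂ) * z ^ 2) • (ρ σ⁻¹) ^ 2)
  ne_zero : ∀ v, (B v).eval ((Ideal.absNorm v.asIdeal : ℂ) ^ (-(3 / 2 + τ * Complex.I : ℂ))) ≠ 0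

/-- The Euler product `∏_v B_v(q_v^{-s})⁻¹`. -/
noncomputable def eulerProduct (B : HeightOneSpectrum (𝓞 K) → ℂ[X]) (s : ℂ) : ℂ :=
  ∏' v : HeightOneSpectrum (𝓞 K), ((B v).eval ((Ideal.absNorm v.asIdeal : ℂ) ^ (-s)))⁻¹

/-- `log |L(E ⊗ ρ, 3/2 + iτ + ε)| / log (1/ε)`. -/
noncomputable def size (B : HeightOneSpectrum (𝓞 K) → ℂ[X]) (τ ε : ℝ) : ℝ :=
  Real.log ‖eulerProduct B (3 / 2 + τ * Complex.I + ε)‖ / Real.log (1 / ε)

/-- `L(E ⊗ ρ, s)`, with some polynomials as Euler factors at finitely many primes, has a meromorphic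
continuation to a neighbourhood of `3/2 + iτ`, of order `m` at `3/2 + iτ`. -/
def HasOrder (W : WeierstrassCurve (𝓞 K)) {n : ℕ}
    (ρ : Representation ℂ Gal(AlgebraicClosure K/K) (Fin n → ℂ)) (τ : ℝ) (m : ℤ) : Prop :=
  ∃ B, IsEulerFactor W ρ τ B ∧ ∃ Λ : ℂ → ℂ, MeromorphicAt Λ (3 / 2 + τ * Complex.I) ∧
    (∀ᶠ s in 𝓝 ((3 / 2 : ℂ) + τ * Complex.I), (3 / 2 : ℝ) < s.re → Λ s = eulerProduct B s) ∧
    meromorphicOrderAt Λ (3 / 2 + τ * Complex.I) = m

end

/-! ### The L-function over an extension of the base field -/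

/-- `V v` is, for every finite place `v`, an integral model of `E` with discriminant minimal at `v`. -/
def MinimalModels {F : Type} [Field F] [NumberField F] (E : WeierstrassCurve F)
    (V : HeightOneSpectrum (𝓞 F) → WeierstrassCurve (𝓞 F)) : Prop :=
  ∀ v : HeightOneSpectrum (𝓞 F),
    (∃ C : WeierstrassCurve.VariableChange F, C • E = (V v).map (algebraMap (𝓞 F) F)) ∧
    ∀ W : WeierstrassCurve (𝓞 F),
      (∃ C : WeierstrassCurve.VariableChange F, C • E = W.map (algebraMap (𝓞 F) F)) →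
        ∀ n : ℕ, (V v).Δ ∈ v.asIdeal ^ n → W.Δ ∈ v.asIdeal ^ n

/-- The Euler product of the problem, computed from the reductions of the models `V v`: the factor at `v`
is `(1 - a_v q_v^{-s} + q_v^{1 - 2s})⁻¹` if the reduction is good and `(1 - a_v q_v^{-s})⁻¹` if it is bad,
where `a_v` is `q_v` minus the number of the affine points of the reduction (`1`, `-1` or `0` if the
reduction is split multiplicative, non-split multiplicative or additive). -/
noncomputable def LSeries {F : Type} [Field F] [NumberField F]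
    (V : HeightOneSpectrum (𝓞 F) → WeierstrassCurve (𝓞 F)) (s : ℂ) : ℂ :=
  ∏' v : HeightOneSpectrum (𝓞 F),
    (1 - ((((Ideal.absNorm v.asIdeal : ℕ) : ℤ) -
          ((Nat.card {p : (𝓞 F ⧸ v.asIdeal) × (𝓞 F ⧸ v.asIdeal) //
            p.2 ^ 2 + Ideal.Quotient.mk v.asIdeal (V v).a₁ * p.1 * p.2
              + Ideal.Quotient.mk v.asIdeal (V v).a₃ * p.2
            = p.1 ^ 3 + Ideal.Quotient.mk v.asIdeal (V v).a₂ * p.1 ^ 2
              + Ideal.Quotient.mk v.asIdeal (V v).a₄ * p.1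
              + Ideal.Quotient.mk v.asIdeal (V v).a₆} : ℕ) : ℤ) : ℤ) : ℂ)
          * ((Ideal.absNorm v.asIdeal : ℕ) : ℂ) ^ (-s)
      + (if (V v).Δ ∈ v.asIdeal then (0 : ℂ) else 1)
          * ((Ideal.absNorm v.asIdeal : ℕ) : ℂ) ^ (1 - 2 * s))⁻¹

/-- `log |L(E/F, 3/2 + iτ + ε)| / log(1/ε)`. -/
noncomputable def sizeOver {F : Type} [Field F] [NumberField F]
    (V : HeightOneSpectrum (𝓞 F) → WeierstrassCurve (𝓞 F)) (τ ε : ℝ) : ℝ :=
  Real.log ‖LSeries V (3 / 2 + τ * Complex.I + ε)‖ / Real.log (1 / ε)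

/-- The Euler product has a meromorphic continuation to a neighbourhood of `3/2 + iτ`, of order `m` at
`3/2 + iτ` (`m < 0` for a pole, `m > 0` for a zero). -/
def HasOrderOver {F : Type} [Field F] [NumberField F]
    (V : HeightOneSpectrum (𝓞 F) → WeierstrassCurve (𝓞 F)) (τ : ℝ) (m : ℤ) : Prop :=
  ∃ Λ : ℂ → ℂ, MeromorphicAt Λ (3 / 2 + τ * Complex.I) ∧
    (∀ᶠ s in 𝓝 ((3 / 2 : ℂ) + τ * Complex.I), (3 / 2 : ℝ) < s.re → Λ s = LSeries V s) ∧
    meromorphicOrderAt Λ (3 / 2 + τ * Complex.I) = m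

/-- The number of embeddings over `K` of `F` into the algebraic closure of `K` that are fixed by `σ`. -/
noncomputable def fixedEmbeddings (K F : Type) [Field K] [Field F] [Algebra K F]
    (σ : Gal(AlgebraicClosure K/K)) : ℕ :=
  Nat.card {i : F →ₐ[K] AlgebraicClosure K // (σ : AlgebraicClosure K →ₐ[K] AlgebraicClosure K).comp i = i}

/-- The number of orbits of the Galois group on the pairs of embeddings over `K` of `F` into the algebraic
closure of `K`.  It is `1` for `F = K`, and `2` if `F ≠ K` and the Galois group acts doubly transitively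
on the embeddings of `F`. -/
noncomputable def pairOrbits (K F : Type) [Field K] [Field F] [Algebra K F] : ℕ :=
  Nat.card (Quot fun p q : (F →ₐ[K] AlgebraicClosure K) × (F →ₐ[K] AlgebraicClosure K) =>
    ∃ σ : Gal(AlgebraicClosure K/K),
      (σ : AlgebraicClosure K →ₐ[K] AlgebraicClosure K).comp p.1 = q.1 ∧
      (σ : AlgebraicClosure K →ₐ[K] AlgebraicClosure K).comp p.2 = q.2)

/-- **The law of Sato and Tate over `K` and the edge `Re s = 3/2` of the L-functions over all extensions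
of `K`.**  Let `E` be an elliptic curve over a number field `K` with the law of Sato and Tate over `K`.

1. (Artin twists; nothing is assumed about continuation.)  Let `ρ_k` be finitely many irreducible
representations of a finite quotient with `r` conjugacy classes of the Galois group of `K`, and
`τ_k ∈ ℝ`, such that for `k ≠ l` neither `(τ_k, ρ_k)` and `(τ_l, ρ_l)` nor `(τ_k, ρ_k)` and `(-τ_l, ρ_l^*)` are
the same up to equivalence.  Then for all small `ε > 0` the values `L(E ⊗ ρ_k, 3/2 + iτ_k + ε)` are not zero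
and `∑_k w_k (log |L(E ⊗ ρ_k, 3/2 + iτ_k + ε)| / log(1/ε))² ≤ 1 - 3/(4r²)`, with `w_k = 1` if `τ_k = 0` and
`ρ_k` is self-dual, `w_k = 2` if not.

2. For every irreducible Artin representation `ρ` of `K` and every `τ`, every meromorphic continuation of
`L(E ⊗ ρ, s)` to a neighbourhood of `3/2 + iτ` has neither a zero nor a pole at `3/2 + iτ`.

3. Let `F` be a finite extension of `K` and `τ` real.  Then for all small `ε > 0`,
`L(E/F, 3/2 + iτ + ε) ≠ 0` and `|log |L(E/F, 3/2 + iτ + ε)|| ≤ (2 - 1/(3[F:K])) log(1/ε)`, and with `t` the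
number of orbits of the Galois group on the pairs of embeddings of `F` and `r` the number of conjugacy classes
of the Galois group of a finite Galois extension of `K` that contains `F`, also
`(log |L(E/F, 3/2 + iτ + ε)| / log(1/ε))² ≤ (1 - 3/(4r²)) (t - 1) + η` for every `η > 0`.  The order at
`3/2 + iτ` of a meromorphic continuation of `L(E/F, s)` to a neighbourhood of this point is `-1`, `0` or
`1`, and it is `0` if `F = K` or if the Galois group is doubly transitive on the embeddings of `F`.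

4. Suppose moreover that the permutation character of `F` is `∑_k c_k tr ρ_k` with real `c_k` and
irreducible Artin representations `ρ_k` of `K` for which `L(E ⊗ ρ_k, s)` has a meromorphic continuation to a
neighbourhood of `3/2 + iτ`.  Then `log |L(E/F, 3/2 + iτ + ε)| / log(1/ε) → 0` as `ε → 0+`, and every
meromorphic continuation of `L(E/F, s)` to a neighbourhood of `3/2 + iτ` has the order `0`. -/
theorem result (K : Type) [Field K] [NumberField K] (W : WeierstrassCurve (𝓞 K)) (hΔ : W.Δ ≠ 0)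
    (hST : SatoTate W) :
    (∀ (U : Subgroup Gal(AlgebraicClosure K/K)) [U.Normal],
      IsOpen (U : Set Gal(AlgebraicClosure K/K)) →
      ∀ (κ : Type) [Fintype κ] (n : κ → ℕ)
        (ρ : ∀ k, Representation ℂ Gal(AlgebraicClosure K/K) (Fin (n k) → ℂ)) (τ : κ → ℝ)
        (B : κ → HeightOneSpectrum (𝓞 K) → ℂ[X]),
      (∀ k, (ρ k).IsIrreducible ∧ (∀ u ∈ U, ρ k u = 1) ∧ IsEulerFactor W (ρ k) (τ k) (B k)) →
      (∀ k l, k ≠ l → ¬ (τ k = τ l ∧ Nonempty ((ρ k).Equiv (ρ l))) ∧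
        ¬ (τ k = -τ l ∧ Nonempty ((ρ k).Equiv (ρ l).dual))) →
      (∀ k, ∀ᶠ ε : ℝ in 𝓝[>] 0, eulerProduct (B k) (3 / 2 + τ k * Complex.I + ε) ≠ 0) ∧
      ∀ᶠ ε : ℝ in 𝓝[>] 0,
        ∑ k, (if τ k = 0 ∧ Nonempty ((ρ k).Equiv (ρ k).dual) then 1 else 2) *
          size (B k) (τ k) ε ^ 2 ≤
            1 - 3 / (4 * (Nat.card (ConjClasses (Gal(AlgebraicClosure K/K) ⧸ U)) : ℝ) ^ 2)) ∧
    (∀ (n : ℕ) (ρ : Representation ℂ Gal(AlgebraicClosure K/K) (Fin n → ℂ)), IsArtin ρ →
      ∀ (τ : ℝ) (m : ℤ), HasOrder W ρ τ m → m = 0) ∧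
    (∀ (F : Type) [Field F] [NumberField F] [Algebra K F]
      (V : HeightOneSpectrum (𝓞 F) → WeierstrassCurve (𝓞 F)),
      MinimalModels ((W.map (algebraMap (𝓞 K) K)).map (algebraMap K F)) V → ∀ τ : ℝ,
      (∀ᶠ ε : ℝ in 𝓝[>] 0, LSeries V (3 / 2 + τ * Complex.I + ε) ≠ 0) ∧
      (∀ᶠ ε : ℝ in 𝓝[>] 0, |sizeOver V τ ε| ≤ 2 - 1 / (3 * (Module.finrank K F : ℝ))) ∧
      (∀ (U : Subgroup Gal(AlgebraicClosure K/K)) [U.Normal],
        IsOpen (U : Set Gal(AlgebraicClosure K/K)) → (∀ u ∈ U, ∀ i : F →ₐ[K] AlgebraicClosure K,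
          (u : AlgebraicClosure K →ₐ[K] AlgebraicClosure K).comp i = i) →
        ∀ η : ℝ, 0 < η → ∀ᶠ ε : ℝ in 𝓝[>] 0, sizeOver V τ ε ^ 2 ≤
          (1 - 3 / (4 * (Nat.card (ConjClasses (Gal(AlgebraicClosure K/K) ⧸ U)) : ℝ) ^ 2)) *
            ((pairOrbits K F : ℝ) - 1) + η) ∧
      (∀ m : ℤ, HasOrderOver V τ m → |m| ≤ 1 ∧ (pairOrbits K F ≤ 2 → m = 0)) ∧
      (∀ (κ : Type) [Fintype κ] (n : κ → ℕ)
        (ρ : ∀ k, Representation ℂ Gal(AlgebraicClosure K/K) (Fin (n k) → ℂ)) (c : κ → ℝ),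
        (∀ k, IsArtin (ρ k) ∧ ∃ m : ℤ, HasOrder W (ρ k) τ m) →
        (∀ σ, (fixedEmbeddings K F σ : ℂ) = ∑ k, (c k : ℂ) * (ρ k).character σ) →
        Tendsto (sizeOver V τ) (𝓝[>] 0) (𝓝 0) ∧ ∀ m : ℤ, HasOrderOver V τ m → m = 0)) := by
  open Pool.Agent.TH553 Pool.Agent.W540.BE Pool.Agent.TH553.RS Pool.Agent.TH553.GP in
  -- the law
  have hav : ∀ φ : HeightOneSpectrum (𝓞 K) → ℝ, average φ = Pool.Agent.TH553.ST.mn φ := by
    intro φ
    funext N
    have hs : ∀ v, v ∈ upto K N ↔ Ideal.absNorm v.asIdeal ≤ N := fun v => mem_upto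
    let e : {v : HeightOneSpectrum (𝓞 K) // Ideal.absNorm v.asIdeal ≤ N} ≃ (upto K N) :=
      Equiv.subtypeEquivRight fun v => (hs v).symm
    have hfin : Finite {v : HeightOneSpectrum (𝓞 K) // Ideal.absNorm v.asIdeal ≤ N} :=
      Finite.of_equiv _ e.symm
    unfold average Pool.Agent.TH553.ST.mn
    have h1 : (∑ᶠ v : {v : HeightOneSpectrum (𝓞 K) // Ideal.absNorm v.asIdeal ≤ N}, φ v.1) =
        ∑ v ∈ upto K N, φ v := by
      rw [← Finset.sum_coe_sort, ← finsum_eq_sum_of_fintype, ← finsum_comp_equiv e]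
      rfl
    have h2 : Nat.card {v : HeightOneSpectrum (𝓞 K) // Ideal.absNorm v.asIdeal ≤ N} =
        (upto K N).card := by
      rw [Nat.card_congr e, Nat.card_eq_fintype_card, Fintype.card_coe]
    rw [h1, h2, smul_eq_mul, div_eq_inv_mul]
  have hlaw : STL (xv W) := by
    intro g hg
    have h1 := hST g hg
    rw [hav] at h1
    exact h1
  have hL : ∀ V : Ultrafilter ℝ, (V : Filter ℝ) ≤ 𝓝[>] 0 → LH (nm K) V (yv W) nu :=
    fun V hV => hlaw.ang hV
  choose σ hσ using exists_isFrob (F := K)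
  have hsz : ∀ {n : ℕ} {ρ : Representation ℂ Gal(AlgebraicClosure K/K) (Fin n → ℂ)} {τ : ℝ}
      {B : HeightOneSpectrum (𝓞 K) → ℂ[X]},
      (∃ U : Subgroup Gal(AlgebraicClosure K/K),
        IsOpen (U : Set Gal(AlgebraicClosure K/K)) ∧ ∀ u ∈ U, ρ u = 1) → IsEulerFactor W ρ τ B →
      (∀ᶠ ε : ℝ in 𝓝[>] 0, eulerProduct B (3 / 2 + τ * Complex.I + ε) ≠ 0) ∧
      Tendsto (fun ε : ℝ => qt (nm K) (fun v => 2 * Real.cos (yv W v) * vr σ ρ τ v) ε - size B τ ε)
        (𝓝[>] 0) (𝓝 0) := by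
    intro n ρ τ B h1 h2
    exact size_art hΔ h1 τ h2.factor h2.ne_zero (eulerProduct B) (fun _ => rfl) hσ
  have hM : ∀ {n : ℕ} {ρ : Representation ℂ Gal(AlgebraicClosure K/K) (Fin n → ℂ)} {τ : ℝ} {m : ℤ},
      (∃ U : Subgroup Gal(AlgebraicClosure K/K),
        IsOpen (U : Set Gal(AlgebraicClosure K/K)) ∧ ∀ u ∈ U, ρ u = 1) → HasOrder W ρ τ m →
      ∀ {V : Ultrafilter ℝ}, (V : Filter ℝ) ≤ 𝓝[>] 0 →
      (M (nm K) V fun v => 2 * Real.cos (yv W v) * vr σ ρ τ v) = -(m : ℝ) := by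
    rintro n ρ τ m h1 ⟨B, h2, Λ, h3, h4, h5⟩ V hV
    obtain ⟨h6, h7⟩ := hsz h1 h2
    have h8 : Tendsto (size B τ) (𝓝[>] 0) (𝓝 (-(m : ℝ))) :=
      Pool.Agent.W353.NF.lim_order (L := eulerProduct B) h6 h3 h4 h5
    refine M_of_tendsto hV ?_
    have h9 := h7.add h8
    rw [zero_add] at h9
    exact h9.congr fun ε => by ring
  obtain ⟨V₀, hV₀⟩ := Ultrafilter.exists_le (𝓝[>] (0 : ℝ))
  have hrpos : ∀ (U : Subgroup Gal(AlgebraicClosure K/K)) [U.Normal],
      IsOpen (U : Set Gal(AlgebraicClosure K/K)) →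
      0 < Nat.card (ConjClasses (Gal(AlgebraicClosure K/K) ⧸ U)) := by
    intro U _ hU
    have : Finite (Gal(AlgebraicClosure K/K) ⧸ U) := Subgroup.quotient_finite_of_isOpen U hU
    have : Nonempty (ConjClasses (Gal(AlgebraicClosure K/K) ⧸ U)) := ⟨ConjClasses.mk 1⟩
    exact Nat.card_pos
  -- part one
  have part1 : ∀ (U : Subgroup Gal(AlgebraicClosure K/K)) [U.Normal],
      IsOpen (U : Set Gal(AlgebraicClosure K/K)) →
      ∀ (κ : Type) [Fintype κ] (n : κ → ℕ)
        (ρ : ∀ k, Representation ℂ Gal(AlgebraicClosure K/K) (Fin (n k) → ℂ)) (τ : κ → ℝ)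
        (B : κ → HeightOneSpectrum (𝓞 K) → ℂ[X]),
      (∀ k, (ρ k).IsIrreducible ∧ (∀ u ∈ U, ρ k u = 1) ∧ IsEulerFactor W (ρ k) (τ k) (B k)) →
      (∀ k l, k ≠ l → ¬ (τ k = τ l ∧ Nonempty ((ρ k).Equiv (ρ l))) ∧
        ¬ (τ k = -τ l ∧ Nonempty ((ρ k).Equiv (ρ l).dual))) →
      (∀ k, ∀ᶠ ε : ℝ in 𝓝[>] 0, eulerProduct (B k) (3 / 2 + τ k * Complex.I + ε) ≠ 0) ∧
      ∀ᶠ ε : ℝ in 𝓝[>] 0,
        ∑ k, (if τ k = 0 ∧ Nonempty ((ρ k).Equiv (ρ k).dual) then 1 else 2) *
          size (B k) (τ k) ε ^ 2 ≤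
            1 - 3 / (4 * (Nat.card (ConjClasses (Gal(AlgebraicClosure K/K) ⧸ U)) : ℝ) ^ 2) := by
    intro U _ hU κ _ n ρ τ B hk hne
    have : Finite (Gal(AlgebraicClosure K/K) ⧸ U) := Subgroup.quotient_finite_of_isOpen U hU
    have hop : ∀ k, ∃ U : Subgroup Gal(AlgebraicClosure K/K),
        IsOpen (U : Set Gal(AlgebraicClosure K/K)) ∧ ∀ u ∈ U, ρ k u = 1 :=
      fun k => ⟨U, hU, (hk k).2.1⟩
    refine ⟨fun k => (hsz (hop k) (hk k).2.2).1, ?_⟩
    have D := dg_art (U := U) (σ := σ) (y := yv W) hL hU hσ (n := n) (ρ := ρ)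
      (fun k => (hk k).2.1) τ (x := fun k => size (B k) (τ k)) (fun k => (hsz (hop k) (hk k).2.2).2)
    have hr := hrpos U hU
    filter_upwards [D.bessel (by linarith [gp_lt hr]) (fun k l hkl =>
      ga_ne (hk k).1 (hk l).1 (hne k l hkl).1 (hne k l hkl).2)
      (A' := 1 - 3 / (4 * (Nat.card (ConjClasses (Gal(AlgebraicClosure K/K) ⧸ U)) : ℝ) ^ 2))
      (by linarith [gp_gt hr])] with ε hε
    refine le_trans (le_of_eq (Finset.sum_congr rfl fun k _ => ?_)) hε
    split_ifs with h1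
    · rw [h1.1, ga_self_real (hk k).1 h1.2, div_one, one_mul]
    · rw [ga_self_half (hk k).1 h1]
      ring
  -- part two
  have part2 : ∀ (n : ℕ) (ρ : Representation ℂ Gal(AlgebraicClosure K/K) (Fin n → ℂ)), IsArtin ρ →
      ∀ (τ : ℝ) (m : ℤ), HasOrder W ρ τ m → m = 0 := by
    intro n ρ hρ τ m hm
    obtain ⟨B, hB, -⟩ := id hm
    obtain ⟨U, hUn, hUf, hUo, hUm⟩ := Open.ker (hρ.continuous)
    have h1 := (part1 U hUo Unit (fun _ => n) (fun _ => ρ) (fun _ => τ) (fun _ => B)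
      (fun _ => ⟨hρ.irreducible, fun u hu => (hUm u).1 hu, hB⟩)
      (fun k l hkl => absurd (Subsingleton.elim k l) hkl)).2
    have h2 := hM hρ.continuous hm hV₀
    have h3 := (hsz hρ.continuous hB).2
    have h4 : Tendsto (size B τ) V₀ (𝓝 (-(m : ℝ))) := by
      have h5 := M_lim (sysF K) hV₀ ((bd_y (yv W)).mul (bd_vr σ hρ.continuous τ))
      rw [h2] at h5
      have h6 := h5.sub (h3.mono_left hV₀)
      rw [sub_zero] at h6
      exact h6.congr fun ε => by ring
    have h5 : ∀ᶠ ε : ℝ in 𝓝[>] 0, size B τ ε ^ 2 ≤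
        1 - 3 / (4 * (Nat.card (ConjClasses (Gal(AlgebraicClosure K/K) ⧸ U)) : ℝ) ^ 2) := by
      filter_upwards [h1] with ε hε
      rw [Finset.univ_unique, Finset.sum_singleton] at hε
      refine le_trans ?_ hε
      have h7 : (1 : ℝ) ≤ (if τ = 0 ∧ Nonempty (ρ.Equiv ρ.dual) then 1 else 2) := by
        split_ifs <;> norm_num
      have h8 := sq_nonneg (size B τ ε)
      exact le_mul_of_one_le_left h8 h7
    have h6 := le_of_tendsto (h4.pow 2) (hV₀ h5)
    have hr := hrpos U hUo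
    have hr' : (0 : ℝ) < Nat.card (ConjClasses (Gal(AlgebraicClosure K/K) ⧸ U)) := by
      exact_mod_cast hr
    have h7 : (0 : ℝ) < 3 / (4 * (Nat.card (ConjClasses (Gal(AlgebraicClosure K/K) ⧸ U)) : ℝ) ^ 2) := by
      positivity
    have h8 : (m : ℝ) ^ 2 < 1 := by
      rw [neg_sq] at h6
      linarith
    have h9 : m ^ 2 < 1 := by exact_mod_cast h8
    nlinarith [sq_nonneg m, sq_nonneg (m - 1), sq_nonneg (m + 1)]
  refine ⟨part1, part2, ?_⟩
  intro F _ _ _ V hV τ
  obtain ⟨hF1, hF2⟩ := size_fld F hΔ V hV τ hσ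
  have hlimF : ∀ m : ℤ, HasOrderOver V τ m → ∀ {V' : Ultrafilter ℝ}, (V' : Filter ℝ) ≤ 𝓝[>] 0 →
      (M (nm K) V' fun v => 2 * Real.cos (yv W v) * ff F σ τ v) = -(m : ℝ) := by
    rintro m ⟨Λ, h1, h2, h3⟩ V' hV'
    have h4 : Tendsto (sizeOver V τ) (𝓝[>] 0) (𝓝 (-(m : ℝ))) :=
      Pool.Agent.W353.NF.lim_order (L := LSeries V) hF1 h1 h2 h3
    exact tendsto_nhds_unique (hF2 V' hV') (h4.mono_left hV')
  have hn : (0 : ℝ) < Module.finrank K F := by exact_mod_cast Module.finrank_pos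
  have hfin : ∀ σ' : Gal(AlgebraicClosure K/K), fixedEmbeddings K F σ' =
      Pool.Agent.W353.NF.fixn K F σ' := fun _ => rfl
  refine ⟨hF1, ?_, ?_, ?_, ?_⟩
  · refine eventually_of_ultra fun V' hV' => ?_
    have h1 := (hF2 V' hV').abs
    have h2 := M_ff_abs F hσ hV' (hL V' hV') τ
    have h3 : |M (nm K) V' fun v => tv W v * ff F σ τ v| <
        2 - 1 / (3 * (Module.finrank K F : ℝ)) := by
      refine lt_of_le_of_lt h2 ?_
      have h4 : 1 / (3 * (Module.finrank K F : ℝ)) < 1 / (2 * (Module.finrank K F : ℝ)) :=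
        one_div_lt_one_div_of_lt (by positivity) (by linarith)
      linarith
    exact (h1.eventually_lt_const h3).mono fun ε hε => hε.le
  · intro U _ hU hUF η hη
    have : Finite (Gal(AlgebraicClosure K/K) ⧸ U) := Subgroup.quotient_finite_of_isOpen U hU
    refine eventually_of_ultra fun V' hV' => ?_
    have h1 := (hF2 V' hV').pow 2
    have h2 := M_ff_gen F hσ hV' (hL V' hV') τ U (fun u hu => Equiv.ext fun i => hUF u hu i)
    have hr := hrpos U hU
    have h3 : (M (nm K) V' fun v => tv W v * ff F σ τ v) ^ 2 <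
        (1 - 3 / (4 * (Nat.card (ConjClasses (Gal(AlgebraicClosure K/K) ⧸ U)) : ℝ) ^ 2)) *
            ((pairOrbits K F : ℝ) - 1) + η := by
      have h4 : (0 : ℝ) ≤ (po K F : ℝ) - 1 := by
        rw [← M_fix_sub F hσ hV']
        exact M_nonneg (sysF K) hV' ((bd_fix F σ).sub (Bd.const 1)).sq fun v => sq_nonneg _
      have h5 := mul_le_mul_of_nonneg_right (show 1 - gp (Nat.card (ConjClasses
        (Gal(AlgebraicClosure K/K) ⧸ U))) ≤ 1 - 3 / (4 * (Nat.card (ConjClasses
          (Gal(AlgebraicClosure K/K) ⧸ U)) : ℝ) ^ 2) by linarith [gp_gt hr]) h4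
      have h6 : (pairOrbits K F : ℝ) = po K F := rfl
      rw [h6]
      have h7 := h2.trans h5
      have h8 : (M (nm K) V' fun v => tv W v * ff F σ τ v) =
        M (nm K) V' fun v => 2 * Real.cos (yv W v) * ff F σ τ v := rfl
      rw [h8]
      linarith
    exact (h1.eventually_lt_const h3).mono fun ε hε => hε.le
  · intro m hm
    have h1 := hlimF m hm hV₀
    refine ⟨?_, fun ht => ?_⟩
    · have h2 := M_ff_abs F hσ hV₀ (hL V₀ hV₀) τ
      rw [h1, abs_neg] at h2
      have h3 : (0 : ℝ) < 1 / (2 * (Module.finrank K F : ℝ)) := by positivity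
      have h4 : |(m : ℝ)| < 2 := by linarith
      have h5 : |m| < 2 := by exact_mod_cast h4
      omega
    · have h2 := M_ff F hσ hV₀ (hL V₀ hV₀) τ
      rw [h1, neg_sq] at h2
      have hr : 0 < Nat.card (ConjClasses (Gal(AlgebraicClosure K/K) ⧸
          (Pool.Agent.W353.NF.act K F).ker)) := hrpos _ (Pool.Agent.W353.NF.ker_act_open K F)
      have h3 : (po K F : ℝ) ≤ 2 := by exact_mod_cast ht
      have h4 := gp_lt hr
      have h5 : 0 < gp (Nat.card (ConjClasses (Gal(AlgebraicClosure K/K) ⧸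
          (Pool.Agent.W353.NF.act K F).ker))) := by
        have := gp_gt hr
        refine lt_trans ?_ this
        have hr' : (0 : ℝ) < Nat.card (ConjClasses (Gal(AlgebraicClosure K/K) ⧸
          (Pool.Agent.W353.NF.act K F).ker)) := by exact_mod_cast hr
        positivity
      have h6 : (m : ℝ) ^ 2 < 1 := by
        refine lt_of_le_of_lt h2 ?_
        change (1 - gp (Nat.card (ConjClasses (Gal(AlgebraicClosure K/K) ⧸
          (Pool.Agent.W353.NF.act K F).ker)))) * ((po K F : ℝ) - 1) < 1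
        nlinarith
      have h7 : m ^ 2 < 1 := by exact_mod_cast h6
      nlinarith [sq_nonneg m, sq_nonneg (m - 1), sq_nonneg (m + 1)]
  · intro κ _ n ρ c hk hc
    have hzero : ∀ {V' : Ultrafilter ℝ}, (V' : Filter ℝ) ≤ 𝓝[>] 0 →
        (M (nm K) V' fun v => 2 * Real.cos (yv W v) * ff F σ τ v) = 0 := by
      intro V' hV'
      refine M_ff_zero F hV' τ (fun k => (hk k).1.continuous) c hc fun k => ?_
      obtain ⟨m, hm⟩ := (hk k).2
      rw [hM (hk k).1.continuous hm hV', part2 _ _ (hk k).1 τ m hm]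
      simp
    refine ⟨tendsto_of_ultra fun V' hV' => ?_, fun m hm => ?_⟩
    · have h1 := hF2 V' hV'
      have h2 := hzero hV'
      have h3 : (M (nm K) V' fun v => tv W v * ff F σ τ v) = 0 := h2
      rw [h3] at h1
      exact h1
    · have h1 := hlimF m hm hV₀
      rw [hzero hV₀] at h1
      have h2 : (m : ℝ) = 0 := by linarith
      exact_mod_cast h2

end Pool.Agent.Results.MP_bf61d2_nt.SatoTateEdge
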