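import Pool.Agent.TH545.SymCore
import Pool.Agent.TH545.Young
import Pool.Agent.W353.NF.EC

/-!
# Elliptic curves over all subfields of a field with symmetric Galois group

`K` is an arbitrary number field and `E` an elliptic curve over `K`, for instance over `K = ℚ`.  Let
`L/K` be a Galois extension with the symmetric group `S_n` as its Galois group.  The continuation of
`L(E/M, s)` to the line `Re s = 3/2`, the edge of the half-plane of absolute convergence, is not known
for most fields `M` between `K` and `L`, even for `K = ℚ`.  The theorem is about all these fields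
together: nothing is assumed about the modularity of `E`.
-/

set_option autoImplicit false

namespace Pool.Agent.Results.MP_bf61d2_nt.SymmetricClosure

open NumberField IsDedekindDomain Filter Topology
open Pool.Agent.W353.EF (perm closure youngField quadField expected)

/-- `V v` is, for every finite place `v`, an integral model of `E` with discriminant minimal at `v`. -/
def MinimalModels {F : Type} [Field F] [NumberField F] (E : WeierstrassCurve F)
    (V : HeightOneSpectrum (𝓞 F) → WeierstrassCurve (𝓞 F)) : Prop :=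
  ∀ v : HeightOneSpectrum (𝓞 F),
    (∃ C : WeierstrassCurve.VariableChange F, C • E = (V v).map (algebraMap (𝓞 F) F)) ∧
    ∀ W : WeierstrassCurve (𝓞 F),
      (∃ C : WeierstrassCurve.VariableChange F, C • E = W.map (algebraMap (𝓞 F) F)) →
        ∀ n : ℕ, (V v).Δ ∈ v.asIdeal ^ n → W.Δ ∈ v.asIdeal ^ n

/-- The Euler product of the problem, computed from the reductions of the models `V v`: the factor at `v`
is `(1 - a_v q_v^{-s} + q_v^{1 - 2s})⁻¹` if the reduction is good and `(1 - a_v q_v^{-s})⁻¹` if it is bad,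
where `a_v` is `q_v` minus the number of the affine points of the reduction (`1`, `-1` or `0` if the
reduction is split multiplicative, non-split multiplicative or additive). -/
noncomputable def LSeries {F : Type} [Field F] [NumberField F]
    (V : HeightOneSpectrum (𝓞 F) → WeierstrassCurve (𝓞 F)) (s : ℂ) : ℂ :=
  ∏' v : HeightOneSpectrum (𝓞 F),
    (1 - ((((Ideal.absNorm v.asIdeal : ℕ) : ℤ) -
          ((Nat.card {p : (𝓞 F ⧸ v.asIdeal) × (𝓞 F ⧸ v.asIdeal) //
            p.2 ^ 2 + Ideal.Quotient.mk v.asIdeal (V v).a₁ * p.1 * p.2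
              + Ideal.Quotient.mk v.asIdeal (V v).a₃ * p.2
            = p.1 ^ 3 + Ideal.Quotient.mk v.asIdeal (V v).a₂ * p.1 ^ 2
              + Ideal.Quotient.mk v.asIdeal (V v).a₄ * p.1
              + Ideal.Quotient.mk v.asIdeal (V v).a₆} : ℕ) : ℤ) : ℤ) : ℂ)
          * ((Ideal.absNorm v.asIdeal : ℕ) : ℂ) ^ (-s)
      + (open Classical in if (V v).Δ ∈ v.asIdeal then (0 : ℂ) else 1)
          * ((Ideal.absNorm v.asIdeal : ℕ) : ℂ) ^ (1 - 2 * s))⁻¹

/-- `log |L(E/F, 3/2 + iτ + ε)| / log(1/ε)`; it tends to `-m` for a function with a meromorphic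
continuation of order `m` at `3/2 + iτ`. -/
noncomputable def size {F : Type} [Field F] [NumberField F]
    (V : HeightOneSpectrum (𝓞 F) → WeierstrassCurve (𝓞 F)) (τ ε : ℝ) : ℝ :=
  Real.log ‖LSeries V (3 / 2 + τ * Complex.I + ε)‖ / Real.log (1 / ε)

/-- The Euler product has a meromorphic continuation to a neighbourhood of `3/2 + iτ`, of order `m` at
`3/2 + iτ` (`m < 0` for a pole, `m > 0` for a zero). -/
def HasOrder {F : Type} [Field F] [NumberField F]
    (V : HeightOneSpectrum (𝓞 F) → WeierstrassCurve (𝓞 F)) (τ : ℝ) (m : ℤ) : Prop :=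
  ∃ Λ : ℂ → ℂ, MeromorphicAt Λ (3 / 2 + τ * Complex.I) ∧
    (∀ᶠ s in 𝓝 ((3 / 2 : ℂ) + τ * Complex.I), (3 / 2 : ℝ) < s.re → Λ s = LSeries V s) ∧
    meromorphicOrderAt Λ (3 / 2 + τ * Complex.I) = m

/-- `F` is a number field, and `L(E/F, s)` has a meromorphic continuation to a neighbourhood of
`3/2 + iτ`, of order `m` at this point. -/
def OrderOver {K : Type} [Field K] (E : WeierstrassCurve K)
    (F : IntermediateField K (AlgebraicClosure K)) (τ : ℝ) (m : ℤ) : Prop :=
  ∃ (_ : NumberField F) (V : HeightOneSpectrum (𝓞 F) → WeierstrassCurve (𝓞 F)),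
    MinimalModels (E.map (algebraMap K F)) V ∧ HasOrder V τ m

/-- **Zeros and poles of `L(E/M, s)` on the line `Re s = 3/2` over all subfields `M` of a field with
symmetric Galois group.**  Let `E` be an elliptic curve over a number field `K`, `F/K` an extension of
degree `n` such that all permutations of the embeddings of `F` are given by the absolute Galois group
of `K`, `L` its closure (so that `Gal(L/K) = S_n`) and `Q = K(√disc F)`.  Let `τ` be real and `n ≥ 8`, or
`τ ≠ 0` and `n` arbitrary.  Suppose that the `L`-series of `E` over the Young subfields of `L` (the fixed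
fields of the Young subgroups of `S_n`) have meromorphic continuations to neighbourhoods of the point
`3/2 + iτ`, and let `m r` be their orders there; `m ⊤` is the order over `K` and `m ⊥` the order over `L`.

Let `M` be any field between `K` and `L`, and `k = m ⊥` if `Q ⊆ M`, `k = m ⊤` otherwise.  Then
`L(E/M, 3/2 + iτ + ε) ≠ 0` for small `ε > 0`, `log |L(E/M, 3/2 + iτ + ε)| / log(1/ε) → -k` as `ε → 0+`, and
`k` is the order of every meromorphic continuation of `L(E/M, s)` to a neighbourhood of `3/2 + iτ`.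
Moreover `|m ⊤| + |m ⊥ - m ⊤| ≤ 2`, and `≤ 1` if `τ ≠ 0`. -/
theorem result (K : Type) [Field K] [NumberField K] (E : WeierstrassCurve K) (hE : E.IsElliptic)
    (F : Type) [Field F] [NumberField F] [Algebra K F] (hF : Function.Surjective (perm K F))
    (τ : ℝ) (hn : τ ≠ 0 ∨ 8 ≤ Module.finrank K F)
    (m : Setoid (F →ₐ[K] AlgebraicClosure K) → ℤ)
    (hm : ∀ r, OrderOver E (youngField K F r) τ (m r)) :
    (∀ (M : IntermediateField K (AlgebraicClosure K)) [NumberField M], M ≤ closure K F →
      ∀ V : HeightOneSpectrum (𝓞 M) → WeierstrassCurve (𝓞 M),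
        MinimalModels (E.map (algebraMap K M)) V →
        (∀ᶠ ε : ℝ in 𝓝[>] 0, LSeries V (3 / 2 + τ * Complex.I + ε) ≠ 0) ∧
        Tendsto (size V τ) (𝓝[>] 0) (𝓝 (-(expected F m M : ℝ))) ∧
        ∀ k : ℤ, HasOrder V τ k → k = expected F m M) ∧
    |m ⊤| + |m ⊥ - m ⊤| ≤ (open Classical in if τ = 0 then 2 else 1) := by
  classical
  open Pool.Agent.W353.NF Pool.Agent.W353.AB Pool.Agent.W353.SN in
  obtain ⟨l, p, q, hl, hp, hq, hD⟩ := Pool.Agent.H341R2.EC.exists_integral E hE
  have hsz : ∀ (M : IntermediateField K (AlgebraicClosure K)) [NumberField M]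
      (V : HeightOneSpectrum (𝓞 M) → WeierstrassCurve (𝓞 M)),
      MinimalModels (E.map (algebraMap K M)) V →
      (∀ᶠ ε : ℝ in 𝓝[>] 0, LSeries V (3 / 2 + τ * Complex.I + ε) ≠ 0) ∧
      (Pool.Agent.W353.AB.syE p q).IsSize (F := M) (fun _ => 1) τ (size V τ) := by
    intro M _ V hV
    exact Pool.Agent.W353.NF.size_EF E hl hp hq hD V hV τ
  have hlim : ∀ (M : IntermediateField K (AlgebraicClosure K)) [NumberField M]
      (V : HeightOneSpectrum (𝓞 M) → WeierstrassCurve (𝓞 M)),
      MinimalModels (E.map (algebraMap K M)) V → ∀ k : ℤ, HasOrder V τ k →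
      Tendsto (size V τ) (𝓝[>] 0) (𝓝 (-(k : ℝ))) := by
    rintro M _ V hV k ⟨Λ, h1, h2, h3⟩
    exact Pool.Agent.W353.NF.lim_order (L := LSeries V) (hsz M V hV).1 h1 h2 h3
  have hπ : (8 / 3 : ℝ) < Real.pi := by linarith [Real.pi_gt_three]
  have hkap : 2 * Pool.Agent.W353.NF.kap τ = if τ = 0 then 2 else 4 / Real.pi := by
    unfold Pool.Agent.W353.NF.kap
    split_ifs <;> ring
  have hmain := Pool.Agent.TH545.SymCore.main (Pool.Agent.W353.AB.syE p q)
    (Pool.Agent.W353.NF.syE_real p q) hF τ (fun θ hcl hys hb => by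
      rw [Pool.Agent.W353.NF.syE_b, hkap] at hb
      by_cases h0 : τ = 0
      · rw [if_pos h0] at hb
        have h8 : 8 ≤ Fintype.card (F →ₐ[K] AlgebraicClosure K) := by
          rw [AlgHom.card K F (AlgebraicClosure K)]
          exact hn.resolve_left (fun h => h h0)
        exact Pool.Agent.W353.SN.main_two (fun g u => by convert hcl g u) hys.ymean h8 hb
      · rw [if_neg h0] at hb
        exact Pool.Agent.W353.SN.main_small (fun g u => by convert hcl g u) hys.ymean
          (B := 4 / Real.pi) (by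
            rw [div_lt_iff₀ (by linarith)]
            linarith) hb) m (fun r => by
      obtain ⟨hnf, V, hV, hk⟩ := hm r
      exact ⟨hnf, size V τ, (hsz _ V hV).2, hlim _ V hV _ hk⟩)
  rw [Pool.Agent.W353.NF.syE_b, hkap] at hmain
  refine ⟨fun M _ hM V hV => ?_, ?_⟩
  · have h1 := hmain.1 M hM (size V τ) (hsz M V hV).2
    have h2 : Tendsto (size V τ) (𝓝[>] 0) (𝓝 (-(expected F m M : ℝ))) := h1
    refine ⟨(hsz M V hV).1, h2, fun k hk => ?_⟩
    have h3 := neg_injective (tendsto_nhds_unique (hlim M V hV k hk) h2)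
    exact_mod_cast h3
  · have h1 := hmain.2
    split_ifs with h0
    · rw [if_pos h0] at h1
      exact_mod_cast h1
    · rw [if_neg h0] at h1
      have h2 : ((|m ⊤| + |m ⊥ - m ⊤| : ℤ) : ℝ) < 2 := by
        refine lt_of_le_of_lt h1 ?_
        rw [div_lt_iff₀ (by linarith)]
        linarith
      have h3 : |m ⊤| + |m ⊥ - m ⊤| < 2 := by exact_mod_cast h2
      omega

end Pool.Agent.Results.MP_bf61d2_nt.SymmetricClosure
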